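import Pool.Agent.Helper75.ZFO.Zero

/-! Twisted structures over the complete graph. -/

namespace Pool.Agent.Helper75.ZFO

open FirstOrder FirstOrder.Language

/-- gadget elements: a vertex and labels of its edges with prescribed sum -/
abbrev Gad (n : ℕ) (c : Fin n → ZMod 2) : Type :=
  {g : Fin n × (Fin n → ZMod 2) // ∑ w ∈ Finset.univ.erase g.1, g.2 w = c g.1}

/-- the universe -/
abbrev Uni (n : ℕ) (c : Fin n → ZMod 2) : Type :=
  (Sym2 (Fin n) × ZMod 2) ⊕ (Gad n c ⊕ (Fin 4 → Set (Sym2 (Fin n))))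

section
variable {n : ℕ} {c : Fin n → ZMod 2}

/-- padding -/
def relP : Uni n c → Prop
  | Sum.inr (Sum.inr _) => True
  | _ => False

/-- same edge -/
def relSE : Uni n c → Uni n c → Prop
  | Sum.inl a, Sum.inl b => a.1 = b.1
  | _, _ => False

/-- same vertex -/
def relSV : Uni n c → Uni n c → Prop
  | Sum.inr (Sum.inl g), Sum.inr (Sum.inl h) => g.1.1 = h.1.1
  | _, _ => False

/-- adjacency of gadget elements and edge elements -/
def relAD : Uni n c → Uni n c → Prop
  | Sum.inr (Sum.inl g), Sum.inl a => ∃ w, w ≠ g.1.1 ∧ a.1 = s(g.1.1, w) ∧ a.2 = g.1.2 w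
  | _, _ => False

/-- membership -/
def relIN (i : Fin 4) : Uni n c → Uni n c → Prop
  | Sum.inl a, Sum.inr (Sum.inr p) => a.1 ∈ p i
  | _, _ => False

/-- interpretation of the symbols -/
def interp : {a : ℕ} → CSym a → (Fin a → Uni n c) → Prop
  | _, .pad, x => relP (x 0)
  | _, .se, x => relSE (x 0) (x 1)
  | _, .sv, x => relSV (x 0) (x 1)
  | _, .adj, x => relAD (x 0) (x 1)
  | _, .inc i, x => relIN i (x 0) (x 1)

instance cfi : cLang.Structure (Uni n c) where
  funMap := fun f => f.elim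
  RelMap := fun r x => interp r x

theorem pd_iff (x : Uni n c) : Pd x ↔ relP x := Iff.rfl
theorem se_iff (x y : Uni n c) : Rl .se x y ↔ relSE x y := Iff.rfl
theorem sv_iff (x y : Uni n c) : Rl .sv x y ↔ relSV x y := Iff.rfl
theorem ad_iff (x y : Uni n c) : Rl .adj x y ↔ relAD x y := Iff.rfl
theorem in_iff (i : Fin 4) (x y : Uni n c) : Rl (.inc i) x y ↔ relIN i x y := Iff.rfl

instance : Finite (Uni n c) := inferInstance
instance : Nonempty (Uni n c) := ⟨Sum.inr (Sum.inr fun _ => ∅)⟩

theorem theta_cfi : Theta (M := Uni n c) Pd (Rl .se) (fun i => Rl (.inc i)) := by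
  classical
  refine ⟨⟨Sum.inr (Sum.inr fun _ => ∅), trivial⟩, ?_, ?_, ?_, ?_⟩
  · intro i p x hp hx
    rcases p with p | p | p
    · exact hp.elim
    · exact hp.elim
    rcases x with x | x | x
    · refine ⟨Sum.inr (Sum.inr fun j => if j = i then {e | ¬ (e ∈ p j ↔ x.1 = e)} else p j),
        trivial, ?_⟩
      intro y hy j
      rcases y with y | y | y
      · show y.1 ∈ (if j = i then {e | ¬ (e ∈ p j ↔ x.1 = e)} else p j) ↔
          if j = i then ¬ (y.1 ∈ p j ↔ x.1 = y.1) else y.1 ∈ p j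
        split_ifs <;> exact Iff.rfl
      · exact hy.elim
      · exact hy.elim
    · exact hx.elim
    · exact hx.elim
  · rintro (x | x | x) (y | y | y) h <;> first | exact h.elim | exact h.symm
  · rintro (x | x | x) (y | y | y) (z | z | z) h h' <;>
      first | exact h.elim | exact h'.elim | exact h.trans h'
  · rintro (x | x | x) (y | y | y) (z | z | z) h h' <;>
      first | exact h.elim | exact h'.elim | skip
    have h1 : x.1 = y.1 := h
    have h2 : x.1 = z.1 := h'
    obtain ⟨e, i⟩ := x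
    obtain ⟨e', j⟩ := y
    obtain ⟨e'', k⟩ := z
    simp only at h1 h2
    subst h1
    subst h2
    have h2 : ∀ i j k : ZMod 2, i = j ∨ i = k ∨ j = k := by decide
    rcases h2 i j k with h | h | h
    · exact Or.inl (by rw [h])
    · exact Or.inr (Or.inl (by rw [h]))
    · exact Or.inr (Or.inr (by rw [h]))

theorem qry_zero : Qry (Uni n (0 : Fin n → ZMod 2)) := by
  refine ⟨theta_cfi, fun x => match x with | Sum.inl a => a.2 = 0 | _ => False, ?_, ?_, ?_⟩
  · rintro (x | x | x) h
    · exact ⟨Sum.inl (x.1, 0), rfl, rfl⟩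
    · exact h.elim
    · exact h.elim
  · rintro (y | y | y) (z | z | z) h hy hz <;>
      first | exact h.elim | exact hy.elim | exact hz.elim | skip
    exact congrArg Sum.inl (Prod.ext h (hy.trans hz.symm))
  · rintro (g | g | g) h
    · exact h.elim
    · refine ⟨Sum.inr (Sum.inl ⟨(g.1.1, 0), by simp⟩), rfl, ?_⟩
      rintro (x | x | x) hx ha
      · obtain ⟨w, -, -, h2⟩ := ha
        exact h2
      · exact hx.elim
      · exact hx.elim
    · exact h.elim

theorem sum_edges (f : Sym2 (Fin n) → ZMod 2) :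
    ∑ v, ∑ w ∈ Finset.univ.erase v, f s(v, w) = 0 := by
  rw [Finset.sum_sigma']
  refine Finset.sum_involution (fun p _ => ⟨p.2, p.1⟩) ?_ ?_ ?_ ?_
  · rintro ⟨v, w⟩ _
    simp only
    rw [Sym2.eq_swap, ← two_mul]
    have : (2 : ZMod 2) = 0 := rfl
    rw [this, zero_mul]
  · rintro ⟨v, w⟩ h _ heq
    simp only [Finset.mem_sigma, Finset.mem_univ, Finset.mem_erase, true_and, and_true] at h
    simp only [Sigma.mk.injEq] at heq
    exact h heq.1
  · rintro ⟨v, w⟩ h
    simp only [Finset.mem_sigma, Finset.mem_univ, Finset.mem_erase, true_and, and_true] at h ⊢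
    exact fun h' => h h'.symm
  · rintro ⟨v, w⟩ _
    rfl

theorem not_qry (hn : 2 ≤ n) (hc : ∑ v, c v ≠ 0) : ¬ Qry (Uni n c) := by
  rintro ⟨-, X, h1, h2, h3⟩
  have hs : ∀ e : Sym2 (Fin n), ∃ i : ZMod 2, X (Sum.inl (e, i)) := by
    intro e
    obtain ⟨y, hy, hX⟩ := h1 (Sum.inl (e, 0)) rfl
    rcases y with y | y | y
    · obtain ⟨e', i⟩ := y
      have : e = e' := hy
      subst this
      exact ⟨i, hX⟩
    · exact hy.elim
    · exact hy.elim
  choose s hs using hs
  have huniq : ∀ e i, X (Sum.inl (e, i)) → i = s e := by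
    intro e i h
    have := h2 (Sum.inl (e, i)) (Sum.inl (e, s e)) rfl h (hs e)
    simpa using this
  apply hc
  rw [← sum_edges s]
  refine Finset.sum_congr rfl fun v _ => ?_
  obtain ⟨w0, hw0⟩ : ∃ w0 : Fin n, w0 ≠ v := by
    have : Nontrivial (Fin n) := Fin.nontrivial_iff_two_le.2 hn
    exact exists_ne v
  have hg : ∑ w ∈ Finset.univ.erase v, (Pi.single w0 (c v) : Fin n → ZMod 2) w = c v := by
    rw [Finset.sum_eq_single w0]
    · simp
    · intro b _ hb
      exact Pi.single_eq_of_ne hb _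
    · intro h
      exact absurd (Finset.mem_erase.2 ⟨hw0, Finset.mem_univ _⟩) h
  obtain ⟨g', hg', hX⟩ := h3 (Sum.inr (Sum.inl ⟨(v, Pi.single w0 (c v)), hg⟩)) rfl
  rcases g' with g' | g' | g'
  · exact hg'.elim
  · obtain ⟨⟨v', S⟩, hS⟩ := g'
    have hv : v = v' := hg'
    subst hv
    simp only at hS
    rw [← hS]
    refine Finset.sum_congr rfl fun w hw => ?_
    exact huniq _ _ (hX (Sum.inl (s(v, w), S w)) rfl ⟨w, (Finset.mem_erase.1 hw).1, rfl, rfl⟩)
  · exact hg'.elim

end

end Pool.Agent.Helper75.ZFO
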