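import Pool.Agent.Helper75.ZFO.Sent

/-! Toggling, the size of the padding sort, and the union bound. -/

namespace Pool.Agent.Helper75.ZFO

open FirstOrder FirstOrder.Language

theorem all_of_toggle {ι : Type} [Finite ι] (F : Set (ι → Prop)) (h0 : F.Nonempty)
    (h : ∀ A ∈ F, ∀ i, ∃ B ∈ F, ∀ j, (B j ↔ ¬ (A j ↔ j = i))) (T : ι → Prop) : T ∈ F := by
  classical
  have := Fintype.ofFinite ι
  have key : ∀ n : ℕ, ∀ A ∈ F, (Finset.univ.filter fun j => ¬ (A j ↔ T j)).card = n → T ∈ F := by
    intro n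
    induction n with
    | zero =>
      intro A hA hc
      rw [Finset.card_eq_zero, Finset.filter_eq_empty_iff] at hc
      have : A = T := by
        funext j
        have := hc (Finset.mem_univ j)
        rw [not_not] at this
        exact propext this
      exact this ▸ hA
    | succ n ih =>
      intro A hA hc
      obtain ⟨i, hi⟩ : (Finset.univ.filter fun j => ¬ (A j ↔ T j)).Nonempty := by
        rw [← Finset.card_pos]; omega
      obtain ⟨B, hB, hBA⟩ := h A hA i
      refine ih B hB ?_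
      have h1 : (Finset.univ.filter fun j => ¬ (B j ↔ T j)) =
          (Finset.univ.filter fun j => ¬ (A j ↔ T j)).erase i := by
        ext j
        have hi' : ¬ (A i ↔ T i) := (Finset.mem_filter.1 hi).2
        simp only [Finset.mem_filter, Finset.mem_univ, true_and, Finset.mem_erase, ne_eq]
        rw [hBA j]
        by_cases hj : j = i
        · subst hj
          tauto
        · tauto
      rw [h1, Finset.card_erase_of_mem hi, hc]
      rfl
  obtain ⟨A, hA⟩ := h0
  exact key _ A hA rfl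

theorem card_pad_ge {M : Type} [Finite M] {Pd : M → Prop} {SE : M → M → Prop}
    {IN : Fin 4 → M → M → Prop} (h : Theta Pd SE IN) :
    2 ^ (2 * Nat.card {x // SE x x}) ≤ Nat.card {p // Pd p} := by
  classical
  obtain ⟨⟨p0, hp0⟩, htog, hsym, htrans, htwo⟩ := h
  let V := {x // SE x x}
  let s : Setoid V := ⟨fun x y => SE x.1 y.1, fun x => x.2, fun h => hsym _ _ h,
    fun h1 h2 => htrans _ _ _ h1 h2⟩
  let C := Quotient s
  have : Finite C := Quotient.finite s
  have : Fintype C := Fintype.ofFinite C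
  have : Fintype V := Fintype.ofFinite V
  let rep : C → V := Quotient.out
  have hrep : ∀ c c' : C, SE (rep c).1 (rep c').1 ↔ c' = c := by
    intro c c'
    constructor
    · intro hh
      have h1 : (⟦rep c⟧ : C) = ⟦rep c'⟧ := Quotient.sound hh
      rw [Quotient.out_eq, Quotient.out_eq] at h1
      exact h1.symm
    · rintro rfl
      exact (rep c').2
  let code : {p // Pd p} → (Fin 4 × C → Prop) := fun p jc => IN jc.1 (rep jc.2).1 p.1
  have hsurj : Function.Surjective code := by
    intro T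
    have : T ∈ Set.range code := by
      refine all_of_toggle (Set.range code) ⟨code ⟨p0, hp0⟩, ⟨_, rfl⟩⟩ ?_ T
      rintro A ⟨p, rfl⟩ ⟨i, c⟩
      obtain ⟨p', hp', hh⟩ := htog i p.1 (rep c).1 p.2 (rep c).2
      refine ⟨code ⟨p', hp'⟩, ⟨_, rfl⟩, ?_⟩
      rintro ⟨j, c'⟩
      show IN j (rep c').1 p' ↔ ¬ (IN j (rep c').1 p.1 ↔ ((j, c') : Fin 4 × C) = (i, c))
      rw [hh (rep c').1 (rep c').2 j]
      by_cases hj : j = i
      · rw [if_pos hj, hrep c c', Prod.mk.injEq]
        simp only [hj, true_and]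
      · rw [if_neg hj, Prod.mk.injEq]
        simp only [hj, false_and]
        tauto
    exact this
  have h1 : Nat.card (Fin 4 × C → Prop) ≤ Nat.card {p // Pd p} :=
    Nat.card_le_card_of_surjective code hsurj
  have h2 : Nat.card (Fin 4 × C → Prop) = 2 ^ (4 * Fintype.card C) := by
    rw [Nat.card_eq_fintype_card, Fintype.card_fun, Fintype.card_prod, Fintype.card_fin]
    simp
  have h3 : Fintype.card V ≤ 2 * Fintype.card C := by
    have h4 := Finset.card_le_mul_card_image (f := fun x : V => (⟦x⟧ : C)) Finset.univ 2 ?_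
    · refine h4.trans ?_
      exact Nat.mul_le_mul_left 2 (Finset.card_le_univ _)
    · intro c _
      by_contra hlt
      rw [not_le, Finset.two_lt_card] at hlt
      obtain ⟨a, ha, b, hb, d, hd, hab, had, hbd⟩ := hlt
      simp only [Finset.mem_filter, Finset.mem_univ, true_and] at ha hb hd
      have e1 : SE a.1 b.1 := Quotient.exact (ha.trans hb.symm)
      have e2 : SE a.1 d.1 := Quotient.exact (ha.trans hd.symm)
      rcases htwo _ _ _ e1 e2 with h | h | h
      · exact hab (Subtype.ext h)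
      · exact had (Subtype.ext h)
      · exact hbd (Subtype.ext h)
  have h5 : Nat.card V = Fintype.card V := Nat.card_eq_fintype_card
  calc 2 ^ (2 * Nat.card {x // SE x x}) = 2 ^ (2 * Fintype.card V) := by rw [← h5]
    _ ≤ 2 ^ (4 * Fintype.card C) := Nat.pow_le_pow_right (by norm_num) (by omega)
    _ ≤ _ := by rw [← h2]; exact h1

theorem arith (N m : ℕ) (hN : 1 ≤ N) (hm : N ^ 2 ≤ m) : 2 * (N * (N - 1) ^ m) ≤ N ^ m := by
  obtain ⟨k, rfl⟩ : ∃ k, N = k + 1 := ⟨N - 1, by omega⟩
  rw [Nat.add_sub_cancel]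
  rcases Nat.eq_zero_or_pos k with rfl | hk
  · have : m ≠ 0 := by
      intro h; subst h; simp at hm
    simp [this]
  · have h1 : 2 * k ^ k ≤ (k + 1) ^ k := by
      obtain ⟨j, rfl⟩ : ∃ j, k = j + 1 := ⟨k - 1, by omega⟩
      have h2 := one_add_mul_le_pow (a := (1 / ((j : ℝ) + 1))) (by
        have : (0 : ℝ) ≤ 1 / ((j : ℝ) + 1) := by positivity
        linarith) (j + 1)
      have h3 : (2 : ℝ) ≤ (1 + 1 / ((j : ℝ) + 1)) ^ (j + 1) := by
        refine le_trans (le_of_eq ?_) h2
        push_cast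
        field_simp
        norm_num
      have h4 : (2 : ℝ) * ((j : ℝ) + 1) ^ (j + 1) ≤ ((j : ℝ) + 1 + 1) ^ (j + 1) := by
        calc (2 : ℝ) * ((j : ℝ) + 1) ^ (j + 1) ≤
            (1 + 1 / ((j : ℝ) + 1)) ^ (j + 1) * ((j : ℝ) + 1) ^ (j + 1) := by gcongr
          _ = ((1 + 1 / ((j : ℝ) + 1)) * ((j : ℝ) + 1)) ^ (j + 1) := by rw [mul_pow]
          _ = _ := by
            congr 1
            field_simp
      exact_mod_cast h4
    have hm' : k * (k + 2) ≤ m := by nlinarith
    obtain ⟨d, rfl⟩ : ∃ d, m = k * (k + 2) + d := ⟨m - k * (k + 2), by omega⟩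
    have h5 : 2 ^ (k + 2) * k ^ (k * (k + 2)) ≤ (k + 1) ^ (k * (k + 2)) := by
      calc 2 ^ (k + 2) * k ^ (k * (k + 2)) = (2 * k ^ k) ^ (k + 2) := by
            rw [mul_pow, ← pow_mul]
        _ ≤ ((k + 1) ^ k) ^ (k + 2) := Nat.pow_le_pow_left h1 _
        _ = _ := by rw [← pow_mul]
    have h6 : k + 1 < 2 ^ (k + 1) := Nat.lt_two_pow_self
    calc 2 * ((k + 1) * k ^ (k * (k + 2) + d)) ≤ 2 * (2 ^ (k + 1) * k ^ (k * (k + 2) + d)) := by
          gcongr
      _ = (2 ^ (k + 2) * k ^ (k * (k + 2))) * k ^ d := by ring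
      _ ≤ (k + 1) ^ (k * (k + 2)) * (k + 1) ^ d :=
          Nat.mul_le_mul h5 (Nat.pow_le_pow_left (by omega) _)
      _ = _ := by rw [← pow_add]

/-- functions that miss some value are rare -/
theorem card_miss {P W : Type} [Finite P] [Finite W] [Nonempty W]
    (h : Nat.card W ^ 2 ≤ Nat.card P) :
    2 * Nat.card {f : P → W // ∃ S, ∀ p, f p ≠ S} ≤ Nat.card (P → W) := by
  classical
  have := Fintype.ofFinite P
  have := Fintype.ofFinite W
  have h1 : Nat.card {f : P → W // ∃ S, ∀ p, f p ≠ S} ≤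
      Nat.card W * (Nat.card W - 1) ^ Nat.card P := by
    have h2 : (Finset.univ.filter fun f : P → W => ∃ S, ∀ p, f p ≠ S) =
        Finset.univ.biUnion fun S : W => Finset.univ.filter fun f : P → W => ∀ p, f p ≠ S := by
      ext f; simp
    rw [Nat.card_eq_fintype_card, Fintype.card_subtype, h2]
    refine Finset.card_biUnion_le.trans ?_
    have h3 : ∀ S : W, (Finset.univ.filter fun f : P → W => ∀ p, f p ≠ S).card =
        (Nat.card W - 1) ^ Nat.card P := by
      intro S
      rw [← Fintype.card_subtype, Fintype.card_congr (Equiv.subtypePiEquivPi (p := fun _ w => w ≠ S)),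
        Fintype.card_fun, Nat.card_eq_fintype_card, Nat.card_eq_fintype_card]
      congr 1
      rw [Fintype.card_subtype_compl]
      simp
    simp_rw [h3]
    rw [Finset.sum_const, Finset.card_univ, smul_eq_mul, Nat.card_eq_fintype_card (α := W)]
  have h4 : Nat.card (P → W) = Nat.card W ^ Nat.card P := by
    rw [Nat.card_eq_fintype_card, Fintype.card_fun, Nat.card_eq_fintype_card,
      Nat.card_eq_fintype_card]
  rw [h4]
  exact (Nat.mul_le_mul_left 2 h1).trans (arith _ _ Nat.card_pos h)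

/-- most relations contain all rows -/
theorem coverage {M : Type} [Finite M] (V P : M → Prop)
    (h : 2 ^ (2 * Nat.card {x // V x}) ≤ Nat.card {p // P p}) :
    Nat.card (Set (Fin 2 → M)) ≤ 2 * Nat.card {R : Set (Fin 2 → M) //
      ∀ S : {x // V x} → Prop, ∃ p : {p // P p}, ∀ y : {x // V x}, (![y.1, p.1] ∈ R ↔ S y)} := by
  classical
  let idx : {p // P p} × {x // V x} → (Fin 2 → M) := fun q => ![q.2.1, q.1.1]
  have hinj : Function.Injective idx := by
    rintro ⟨p, y⟩ ⟨p', y'⟩ hh
    have e1 := congrFun hh 0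
    have e2 := congrFun hh 1
    simp only [idx, Matrix.cons_val_zero, Matrix.cons_val_one] at e1 e2
    exact Prod.ext (Subtype.ext e2) (Subtype.ext e1)
  let e : Set (Fin 2 → M) ≃ ({p // P p} → {x // V x} → Prop) × (↥((Set.range idx)ᶜ) → Prop) :=
    ((Equiv.arrowCongr (Equiv.Set.sumCompl (Set.range idx)).symm (Equiv.refl Prop)).trans
      (Equiv.sumArrowEquivProdArrow _ _ _)).trans
      (Equiv.prodCongr ((Equiv.arrowCongr (Equiv.ofInjective idx hinj).symm (Equiv.refl Prop)).trans
        (Equiv.curry _ _ _)) (Equiv.refl _))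
  have he : ∀ (R : Set (Fin 2 → M)) p y, (e R).1 p y ↔ ![y.1, p.1] ∈ R := by
    intro R p y
    simp [e, idx]
    rfl
  have hne : Nonempty ({x // V x} → Prop) := ⟨fun _ => True⟩
  have hW : Nat.card ({x // V x} → Prop) = 2 ^ Nat.card {x // V x} := by
    have := Fintype.ofFinite {x // V x}
    rw [Nat.card_eq_fintype_card, Fintype.card_fun, Nat.card_eq_fintype_card]
    simp
  have h1 := card_miss (P := {p // P p}) (W := {x // V x} → Prop) (by
    rw [hW, ← pow_mul, mul_comm]; exact h)
  -- complement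
  set G : Set (Set (Fin 2 → M)) := {R | ∀ S : {x // V x} → Prop, ∃ p : {p // P p},
    ∀ y : {x // V x}, (![y.1, p.1] ∈ R ↔ S y)} with hG
  have h2 : Nat.card ↥(Gᶜ) = Nat.card {f : {p // P p} → {x // V x} → Prop // ∃ S, ∀ p, f p ≠ S} *
      Nat.card (↥((Set.range idx)ᶜ) → Prop) := by
    rw [← Nat.card_prod]
    refine Nat.card_congr ?_
    refine (Equiv.subtypeEquiv e (q := fun z => ∃ S, ∀ p, z.1 p ≠ S) ?_).trans ?_
    · intro R
      rw [Set.mem_compl_iff, hG, Set.mem_ofPred_eq]
      push Not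
      constructor
      · rintro ⟨S, hS⟩
        refine ⟨S, fun p hp => ?_⟩
        obtain ⟨y, hy⟩ := hS p
        have h3 : (e R).1 p y ↔ S y := by rw [hp]
        rw [he] at h3
        rcases hy with ⟨h4, h5⟩ | ⟨h4, h5⟩
        · exact h5 (h3.1 h4)
        · exact h4 (h3.2 h5)
      · rintro ⟨S, hS⟩
        refine ⟨S, fun p => ?_⟩
        by_contra hcon
        push Not at hcon
        refine hS p ?_
        funext y
        refine propext ?_
        rw [he]
        have := hcon y
        tauto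
    · exact {
        toFun := fun z => (⟨z.1.1, z.2⟩, z.1.2)
        invFun := fun z => ⟨(z.1.1, z.2), z.1.2⟩
        left_inv := fun z => rfl
        right_inv := fun z => rfl }
  have h3 : Nat.card (Set (Fin 2 → M)) = Nat.card ({p // P p} → {x // V x} → Prop) *
      Nat.card (↥((Set.range idx)ᶜ) → Prop) := by
    rw [← Nat.card_prod]
    exact Nat.card_congr e
  have h4 : Nat.card ↥G + Nat.card ↥(Gᶜ) = Nat.card (Set (Fin 2 → M)) := by
    rw [← Nat.card_sum]
    exact Nat.card_congr (Equiv.Set.sumCompl G)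
  have h5 : 2 * Nat.card ↥(Gᶜ) ≤ Nat.card (Set (Fin 2 → M)) := by
    rw [h2, h3, ← mul_assoc]
    exact Nat.mul_le_mul_right _ h1
  have h6 : Nat.card {R : Set (Fin 2 → M) // ∀ S : {x // V x} → Prop, ∃ p : {p // P p},
      ∀ y : {x // V x}, (![y.1, p.1] ∈ R ↔ S y)} = Nat.card ↥G := rfl
  rw [h6]
  omega

end Pool.Agent.Helper75.ZFO
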