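import Mathlib

/-!
Zero-error randomized first-order logic and infinitary counting logic with finitely many variables.
-/

namespace Pool.Agent.Helper75.ZFO

open FirstOrder

/-- The single relation symbol, of arity `k`, of the random vocabulary. -/
inductive RandRel (k : ℕ) : ℕ → Type
  | r : RandRel k k

/-- The random vocabulary: one relation symbol of arity `k`. -/
def randLang (k : ℕ) : FirstOrder.Language.{0, 0} := ⟨fun _ => Empty, RandRel k⟩

/-- The structure for the random vocabulary given by a `k`-ary relation `R`. -/
@[reducible] def randStr {k : ℕ} {M : Type} (R : Set (Fin k → M)) : (randLang k).Structure M where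
  funMap := fun f => f.elim
  RelMap := fun s x => match s with | RandRel.r => x ∈ R

/-- The sentence `φ` holds in the structure `M` expanded by the relation `R`. -/
def Sat {L : FirstOrder.Language.{0, 0}} {k : ℕ} {M : Type} [L.Structure M] (R : Set (Fin k → M))
    (φ : (L.sum (randLang k)).Sentence) : Prop :=
  letI := randStr R
  M ⊨ φ

/-- The pair of first-order sentences `yes`, `no` defines the query `Q` on finite structures with
zero error, using one uniformly random `k`-ary relation: if `M` satisfies the query, then `no` is
false in every expansion of `M` and `yes` is true in at least half of them, and the other way round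
if `M` does not satisfy the query. -/
def ZeroErrorDefines (L : FirstOrder.Language.{0, 0}) (k : ℕ) (yes no : (L.sum (randLang k)).Sentence)
    (Q : (M : Type) → [L.Structure M] → Prop) : Prop :=
  ∀ (M : Type) [Finite M] [Nonempty M] [L.Structure M],
    (Q M → (∀ R : Set (Fin k → M), ¬ Sat R no) ∧
      Nat.card (Set (Fin k → M)) ≤ 2 * Nat.card {R : Set (Fin k → M) // Sat R yes}) ∧
    (¬ Q M → (∀ R : Set (Fin k → M), ¬ Sat R yes) ∧
      Nat.card (Set (Fin k → M)) ≤ 2 * Nat.card {R : Set (Fin k → M) // Sat R no})

/-- Formulas of the infinitary counting logic with the `m` variables `0, …, m - 1` over a relational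
vocabulary: atomic formulas, negation, conjunctions over arbitrary index types, and quantifiers
`there are at least c elements x_i such that`. -/
inductive CInf (L : FirstOrder.Language.{0, 0}) (m : ℕ) : Type 1
  | eq (i j : Fin m) : CInf L m
  | rel {a : ℕ} (r : L.Relations a) (x : Fin a → Fin m) : CInf L m
  | neg (φ : CInf L m) : CInf L m
  | conj {ι : Type} (φ : ι → CInf L m) : CInf L m
  | atLeast (c : ℕ) (i : Fin m) (φ : CInf L m) : CInf L m

/-- Truth of a formula of infinitary counting logic under the assignment `v`. -/
def CInf.Realize {L : FirstOrder.Language.{0, 0}} {m : ℕ} {M : Type} [L.Structure M] :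
    CInf L m → (Fin m → M) → Prop
  | .eq i j, v => v i = v j
  | .rel r x, v => FirstOrder.Language.Structure.RelMap r (v ∘ x)
  | .neg φ, v => ¬ φ.Realize v
  | .conj φ, v => ∀ i, (φ i).Realize v
  | .atLeast c i φ, v => ∃ s : Finset M, c ≤ s.card ∧ ∀ a ∈ s, φ.Realize (Function.update v i a)

/-- The formula `ψ` of infinitary counting logic defines the query `Q` on finite structures. -/
def CInf.Defines {L : FirstOrder.Language.{0, 0}} {m : ℕ} (ψ : CInf L m)
    (Q : (M : Type) → [L.Structure M] → Prop) : Prop :=
  ∀ (M : Type) [Finite M] [Nonempty M] [L.Structure M] (v : Fin m → M), ψ.Realize v ↔ Q M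

end Pool.Agent.Helper75.ZFO
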