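import Pool.Agent.Helper75.ZFO.Cfi

/-! The bijective game on twisted structures. -/

namespace Pool.Agent.Helper75.ZFO

open FirstOrder FirstOrder.Language

variable {n : ℕ} {c c' : Fin n → ZMod 2}

/-- `b` is the image of `a` under the flip `f` -/
def Mt (f : Sym2 (Fin n) → ZMod 2) : Uni n c → Uni n c' → Prop
  | Sum.inl a, Sum.inl b => b.1 = a.1 ∧ b.2 = a.2 + f a.1
  | Sum.inr (Sum.inl g), Sum.inr (Sum.inl h) =>
      h.1.1 = g.1.1 ∧ ∀ w, h.1.2 w = g.1.2 w + f s(g.1.1, w)
  | Sum.inr (Sum.inr p), Sum.inr (Sum.inr q) => q = p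
  | _, _ => False

/-- the flip is correct at all vertices but `t` -/
def Dp (c c' : Fin n → ZMod 2) (f : Sym2 (Fin n) → ZMod 2) (t : Fin n) : Prop :=
  (∀ v, v ≠ t → c' v = c v + ∑ w ∈ Finset.univ.erase v, f s(v, w)) ∧
  c' t = c t + ∑ w ∈ Finset.univ.erase t, f s(t, w) + 1

/-- positions won by the second player -/
def Zp {m : ℕ} (a : Fin m → Uni n c) (b : Fin m → Uni n c') : Prop :=
  ∃ f t, Dp c c' f t ∧ (∀ j (g : Gad n c), a j = Sum.inr (Sum.inl g) → g.1.1 ≠ t) ∧
    ∀ j, Mt f (a j) (b j)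

theorem mt_eq {f : Sym2 (Fin n) → ZMod 2} {a a' : Uni n c} {b b' : Uni n c'}
    (h : Mt f a b) (h' : Mt f a' b') : a = a' ↔ b = b' := by
  rcases a with a | a | a <;> rcases b with b | b | b <;>
    first | exact h.elim | skip
  all_goals rcases a' with a' | a' | a' <;> rcases b' with b' | b' | b' <;>
    first | exact h'.elim | skip
  all_goals try simp only [reduceCtorEq, Sum.inl.injEq, Sum.inr.injEq]
  · obtain ⟨h1, h2⟩ := h
    obtain ⟨h3, h4⟩ := h'
    constructor
    · rintro rfl
      exact Prod.ext (h1.trans h3.symm) (h2.trans h4.symm)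
    · intro hb
      have e1 : a.1 = a'.1 := by rw [← h1, ← h3, hb]
      refine Prod.ext e1 ?_
      have e2 : a.2 + f a.1 = a'.2 + f a'.1 := by rw [← h2, ← h4, hb]
      rw [e1] at e2
      exact add_right_cancel e2
  · obtain ⟨h1, h2⟩ := h
    obtain ⟨h3, h4⟩ := h'
    constructor
    · rintro rfl
      refine Subtype.ext (Prod.ext (h1.trans h3.symm) ?_)
      funext w
      rw [h2, h4]
    · intro hb
      have e1 : a.1.1 = a'.1.1 := by rw [← h1, ← h3, hb]
      refine Subtype.ext (Prod.ext e1 ?_)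
      funext w
      have e2 : a.1.2 w + f s(a.1.1, w) = a'.1.2 w + f s(a'.1.1, w) := by
        rw [← h2, ← h4, hb]
      rw [e1] at e2
      exact add_right_cancel e2
  · have h1 : b = a := h
    have h2 : b' = a' := h'
    rw [h1, h2]

theorem mt_P {f : Sym2 (Fin n) → ZMod 2} {a : Uni n c} {b : Uni n c'}
    (h : Mt f a b) : relP a ↔ relP b := by
  rcases a with a | a | a <;> rcases b with b | b | b <;>
    first | exact h.elim | exact Iff.rfl

theorem mt_SE {f : Sym2 (Fin n) → ZMod 2} {a a' : Uni n c} {b b' : Uni n c'}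
    (h : Mt f a b) (h' : Mt f a' b') : relSE a a' ↔ relSE b b' := by
  rcases a with a | a | a <;> rcases b with b | b | b <;>
    first | exact h.elim | skip
  all_goals rcases a' with a' | a' | a' <;> rcases b' with b' | b' | b' <;>
    first | exact h'.elim | exact Iff.rfl | skip
  show a.1 = a'.1 ↔ b.1 = b'.1
  rw [h.1, h'.1]

theorem mt_SV {f : Sym2 (Fin n) → ZMod 2} {a a' : Uni n c} {b b' : Uni n c'}
    (h : Mt f a b) (h' : Mt f a' b') : relSV a a' ↔ relSV b b' := by
  rcases a with a | a | a <;> rcases b with b | b | b <;>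
    first | exact h.elim | skip
  all_goals rcases a' with a' | a' | a' <;> rcases b' with b' | b' | b' <;>
    first | exact h'.elim | exact Iff.rfl | skip
  show a.1.1 = a'.1.1 ↔ b.1.1 = b'.1.1
  rw [h.1, h'.1]

theorem mt_AD {f : Sym2 (Fin n) → ZMod 2} {a a' : Uni n c} {b b' : Uni n c'}
    (h : Mt f a b) (h' : Mt f a' b') : relAD a a' ↔ relAD b b' := by
  rcases a with a | a | a <;> rcases b with b | b | b <;>
    first | exact h.elim | skip
  all_goals rcases a' with a' | a' | a' <;> rcases b' with b' | b' | b' <;>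
    first | exact h'.elim | exact Iff.rfl | skip
  show (∃ w, w ≠ a.1.1 ∧ a'.1 = s(a.1.1, w) ∧ a'.2 = a.1.2 w) ↔
    ∃ w, w ≠ b.1.1 ∧ b'.1 = s(b.1.1, w) ∧ b'.2 = b.1.2 w
  obtain ⟨h1, h2⟩ := h
  obtain ⟨h3, h4⟩ := h'
  rw [h1, h3, h4]
  constructor
  · rintro ⟨w, hw, h5, h6⟩
    exact ⟨w, hw, h5, by rw [h2, h6, h5]⟩
  · rintro ⟨w, hw, h5, h6⟩
    refine ⟨w, hw, h5, ?_⟩
    rw [h2, h5] at h6
    exact add_right_cancel h6

theorem mt_IN {f : Sym2 (Fin n) → ZMod 2} (i : Fin 4) {a a' : Uni n c} {b b' : Uni n c'}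
    (h : Mt f a b) (h' : Mt f a' b') : relIN i a a' ↔ relIN i b b' := by
  rcases a with a | a | a <;> rcases b with b | b | b <;>
    first | exact h.elim | skip
  all_goals rcases a' with a' | a' | a' <;> rcases b' with b' | b' | b' <;>
    first | exact h'.elim | exact Iff.rfl | skip
  show a.1 ∈ a' i ↔ b.1 ∈ b' i
  have h1 : b' = a' := h'
  rw [h.1, h1]

/-- translation of the edge elements -/
def edgeE (f : Sym2 (Fin n) → ZMod 2) : Sym2 (Fin n) × ZMod 2 ≃ Sym2 (Fin n) × ZMod 2 where
  toFun := fun a => (a.1, a.2 + f a.1)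
  invFun := fun a => (a.1, a.2 - f a.1)
  left_inv := fun a => by simp
  right_inv := fun a => by simp

/-- translation of the gadget elements -/
def gadE (G : Fin n → Fin n → ZMod 2)
    (hG : ∀ v, c' v = c v + ∑ w ∈ Finset.univ.erase v, G v w) : Gad n c ≃ Gad n c' where
  toFun := fun g => ⟨(g.1.1, fun w => g.1.2 w + G g.1.1 w), by
    rw [Finset.sum_add_distrib, g.2, hG]⟩
  invFun := fun g => ⟨(g.1.1, fun w => g.1.2 w - G g.1.1 w), by
    rw [Finset.sum_sub_distrib, g.2, hG]; simp⟩
  left_inv := fun g => by simp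
  right_inv := fun g => by simp

theorem step {m : ℕ} (hn : m + 1 ≤ n) {a : Fin m → Uni n c} {b : Fin m → Uni n c'}
    (h : Zp a b) (j : Fin m) :
    ∃ e : Uni n c ≃ Uni n c', ∀ x, Zp (Function.update a j x) (Function.update b j (e x)) := by
  classical
  obtain ⟨f, t, ⟨hD1, hD2⟩, hno, hM⟩ := h
  -- the element x excludes the vertex t'
  let bad : Uni n c → Fin n → Prop := fun x t' =>
    (∃ g : Gad n c, x = Sum.inr (Sum.inl g) ∧ g.1.1 = t') ∨
    (∃ i : ZMod 2, x = Sum.inl (s(t, t'), i))
  have hbad : ∀ x t1 t2, bad x t1 → bad x t2 → t1 = t2 := by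
    rintro x t1 t2 (⟨g, hg, h1⟩ | ⟨i, hi⟩) (⟨g', hg', h2⟩ | ⟨i', hi'⟩)
    · rw [hg] at hg'
      have : g = g' := by simpa using hg'
      rw [← h1, ← h2, this]
    · rw [hg] at hi'; simp at hi'
    · rw [hi] at hg'; simp at hg'
    · rw [hi] at hi'
      have h3 : s(t, t1) = s(t, t2) := by
        have := Sum.inl.inj hi'
        exact congrArg Prod.fst this
      exact Sym2.congr_right.1 h3
  obtain ⟨t', ht', hgood⟩ : ∃ t', t' ≠ t ∧ ∀ i, i ≠ j → ¬ bad (a i) t' := by
    by_contra hcon
    push Not at hcon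
    have h1 : ∀ u : {u : Fin n // u ≠ t}, ∃ i : {i : Fin m // i ≠ j}, bad (a i) u := by
      rintro ⟨u, hu⟩
      obtain ⟨i, hi, hb⟩ := hcon u hu
      exact ⟨⟨i, hi⟩, hb⟩
    choose φ hφ using h1
    have hinj : Function.Injective φ := by
      intro u u' huu
      have h2 := hφ u
      have h3 := hφ u'
      rw [huu] at h2
      exact Subtype.ext (hbad _ _ _ h2 h3)
    have h4 := Fintype.card_le_of_injective φ hinj
    have h5 : Fintype.card {u : Fin n // u ≠ t} = n - 1 := by
      rw [Fintype.card_subtype_compl]; simp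
    have h6 : Fintype.card {i : Fin m // i ≠ j} = m - 1 := by
      rw [Fintype.card_subtype_compl]; simp
    have h7 : 0 < m := by
      have := j.2
      omega
    omega
  let f' : Sym2 (Fin n) → ZMod 2 := fun e => f e + if e = s(t, t') then 1 else 0
  have hf'1 : ∀ e, e ≠ s(t, t') → f' e = f e := by
    intro e he
    show f e + _ = f e
    rw [if_neg he, add_zero]
  have hf'2 : f' s(t, t') = f s(t, t') + 1 := by
    show f s(t, t') + _ = _
    rw [if_pos rfl]
  have hsum : ∀ u u' : Fin n, u ≠ u' → s(u, u') = s(t, t') →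
      ∑ w ∈ Finset.univ.erase u, f' s(u, w) = ∑ w ∈ Finset.univ.erase u, f s(u, w) + 1 := by
    intro u u' hu huu
    have hmem : u' ∈ Finset.univ.erase u := Finset.mem_erase.2 ⟨hu.symm, Finset.mem_univ _⟩
    rw [← Finset.add_sum_erase _ _ hmem, ← Finset.add_sum_erase _ (fun w => f s(u, w)) hmem]
    have h1 : ∑ w ∈ (Finset.univ.erase u).erase u', f' s(u, w) =
        ∑ w ∈ (Finset.univ.erase u).erase u', f s(u, w) := by
      refine Finset.sum_congr rfl fun w hw => hf'1 _ fun hh => ?_
      rw [← huu] at hh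
      exact (Finset.mem_erase.1 hw).1 (Sym2.congr_right.1 hh)
    rw [h1, huu, hf'2]
    ring
  have hD1' : ∀ v, v ≠ t' → c' v = c v + ∑ w ∈ Finset.univ.erase v, f' s(v, w) := by
    intro v hv
    by_cases hvt : v = t
    · subst hvt
      rw [hsum v t' hv rfl, hD2]
      ring
    · rw [hD1 v hvt]
      congr 1
      refine Finset.sum_congr rfl fun w _ => (hf'1 _ fun hh => ?_).symm
      rw [Sym2.eq_iff] at hh
      rcases hh with ⟨h1, -⟩ | ⟨h1, -⟩
      · exact hvt h1
      · exact hv h1
  have hD2' : c' t' = c t' + ∑ w ∈ Finset.univ.erase t', f' s(t', w) + 1 := by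
    rw [hsum t' t ht' Sym2.eq_swap, hD1 t' ht']
    have : (1 : ZMod 2) + 1 = 0 := rfl
    rw [add_assoc, add_assoc, this, add_zero]
  have hzero : ∀ i, i ≠ j → Mt (c := c) (c' := c') f' (a i) (b i) := by
    intro i hi
    have h1 := hM i
    have h2 := hgood i hi
    revert h1 h2
    have h3 := hno i
    revert h3
    rcases a i with x | x | x <;> rcases b i with y | y | y <;> intro h3 h1 h2 <;>
      first | exact h1.elim | skip
    · refine ⟨h1.1, ?_⟩
      rw [hf'1 x.1 fun hh => h2 (Or.inr ⟨x.2, by rw [← hh]⟩)]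
      exact h1.2
    · refine ⟨h1.1, fun w => ?_⟩
      rw [hf'1 _ fun hh => ?_]
      · exact h1.2 w
      · rw [Sym2.eq_iff] at hh
        rcases hh with ⟨h4, -⟩ | ⟨h4, -⟩
        · exact h3 x rfl h4
        · exact h2 (Or.inl ⟨x, rfl, h4⟩)
    · exact h1
  let G : Fin n → Fin n → ZMod 2 := fun v w => if v = t then f' s(v, w) else f s(v, w)
  have hG : ∀ v, c' v = c v + ∑ w ∈ Finset.univ.erase v, G v w := by
    intro v
    by_cases hv : v = t
    · simp only [G, if_pos hv]
      exact hD1' v (by rw [hv]; exact Ne.symm ht')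
    · simp only [G, if_neg hv]
      exact hD1 v hv
  refine ⟨Equiv.sumCongr (edgeE f) (Equiv.sumCongr (gadE G hG) (Equiv.refl _)), fun x => ?_⟩
  by_cases hx : ∃ g : Gad n c, x = Sum.inr (Sum.inl g) ∧ g.1.1 = t
  · obtain ⟨g, rfl, hg⟩ := hx
    refine ⟨f', t', ⟨hD1', hD2'⟩, ?_, ?_⟩
    · intro i g' hi
      by_cases hij : i = j
      · subst hij
        rw [Function.update_self] at hi
        have : g = g' := by simpa using hi
        rw [← this, hg]
        exact Ne.symm ht'
      · rw [Function.update_of_ne hij] at hi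
        intro hcon
        exact hgood i hij (Or.inl ⟨g', hi, hcon⟩)
    · intro i
      by_cases hij : i = j
      · subst hij
        rw [Function.update_self, Function.update_self]
        refine ⟨rfl, fun w => ?_⟩
        show g.1.2 w + G g.1.1 w = _
        simp only [G, if_pos hg]
      · rw [Function.update_of_ne hij, Function.update_of_ne hij]
        exact hzero i hij
  · refine ⟨f, t, ⟨hD1, hD2⟩, ?_, ?_⟩
    · intro i g' hi
      by_cases hij : i = j
      · subst hij
        rw [Function.update_self] at hi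
        intro hcon
        exact hx ⟨g', hi, hcon⟩
      · rw [Function.update_of_ne hij] at hi
        exact hno i g' hi
    · intro i
      by_cases hij : i = j
      · subst hij
        rw [Function.update_self, Function.update_self]
        rcases x with x | x | x
        · exact ⟨rfl, rfl⟩
        · refine ⟨rfl, fun w => ?_⟩
          show x.1.2 w + G x.1.1 w = _
          have : x.1.1 ≠ t := fun h => hx ⟨x, rfl, h⟩
          simp only [G, if_neg this]
        · rfl
      · rw [Function.update_of_ne hij, Function.update_of_ne hij]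
        exact hM i

theorem equiv_of_zp {m : ℕ} (hn : m + 1 ≤ n) (φ : CInf cLang m) :
    ∀ (a : Fin m → Uni n c) (b : Fin m → Uni n c'), Zp a b → (φ.Realize a ↔ φ.Realize b) := by
  induction φ with
  | eq i j =>
    rintro a b ⟨f, t, -, -, hM⟩
    exact mt_eq (hM i) (hM j)
  | rel r x =>
    rintro a b ⟨f, t, -, -, hM⟩
    cases r with
    | pad => exact mt_P (hM (x 0))
    | se => exact mt_SE (hM (x 0)) (hM (x 1))
    | sv => exact mt_SV (hM (x 0)) (hM (x 1))
    | adj => exact mt_AD (hM (x 0)) (hM (x 1))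
    | inc i => exact mt_IN i (hM (x 0)) (hM (x 1))
  | neg φ ih =>
    intro a b h
    exact not_congr (ih a b h)
  | conj φ ih =>
    intro a b h
    exact forall_congr' fun i => ih i a b h
  | atLeast k i φ ih =>
    intro a b h
    obtain ⟨e, he⟩ := step hn h i
    constructor
    · rintro ⟨s, hs, hs'⟩
      refine ⟨s.map e.toEmbedding, by rwa [Finset.card_map], fun y hy => ?_⟩
      obtain ⟨x, hx, rfl⟩ := Finset.mem_map.1 hy
      exact (ih _ _ (he x)).1 (hs' x hx)
    · rintro ⟨s, hs, hs'⟩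
      refine ⟨s.map e.symm.toEmbedding, by rwa [Finset.card_map], fun x hx => ?_⟩
      obtain ⟨y, hy, rfl⟩ := Finset.mem_map.1 hx
      have := he (e.symm y)
      rw [e.apply_symm_apply] at this
      exact (ih _ _ this).2 (hs' y hy)

/-- No formula of infinitary counting logic with finitely many variables defines the query. -/
theorem not_definable (m : ℕ) (ψ : CInf cLang m) :
    ¬ ψ.Defines (fun M [cLang.Structure M] => Qry M) := by
  intro h
  let n := m + 2
  let c' : Fin n → ZMod 2 := Pi.single 0 1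
  have h1 := h (Uni n (0 : Fin n → ZMod 2)) (fun _ => Sum.inr (Sum.inr fun _ => ∅))
  have h2 := h (Uni n c') (fun _ => Sum.inr (Sum.inr fun _ => ∅))
  have hZ : Zp (c := (0 : Fin n → ZMod 2)) (c' := c') (m := m)
      (fun _ => Sum.inr (Sum.inr fun _ => ∅)) (fun _ => Sum.inr (Sum.inr fun _ => ∅)) := by
    refine ⟨0, 0, ⟨fun v hv => ?_, ?_⟩, fun j g hg => ?_, fun j => rfl⟩
    · simp only [c', Pi.zero_apply, Finset.sum_const_zero, add_zero]
      exact Pi.single_eq_of_ne hv _
    · simp [c']
    · simp at hg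
  have h3 := equiv_of_zp (by omega) ψ _ _ hZ
  have h4 : Qry (Uni n c') := h2.1 (h3.1 (h1.2 qry_zero))
  refine not_qry (by omega) ?_ h4
  simp [c']

end Pool.Agent.Helper75.ZFO
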