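import Pool.Agent.Helper75.ZFO.Defs

/-! The vocabulary and the first-order sentences. -/

namespace Pool.Agent.Helper75.ZFO

open FirstOrder FirstOrder.Language

/-- relation symbols -/
inductive CSym : ℕ → Type
  | pad : CSym 1
  | se : CSym 2
  | sv : CSym 2
  | adj : CSym 2
  | inc (i : Fin 4) : CSym 2

/-- the vocabulary -/
def cLang : FirstOrder.Language.{0, 0} := ⟨fun _ => Empty, CSym⟩

section sem
variable {M : Type} (Pd : M → Prop) (SE SV AD : M → M → Prop) (IN : Fin 4 → M → M → Prop)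

/-- meaning of the well-formedness condition -/
def Theta : Prop :=
  (∃ p, Pd p) ∧
  (∀ i p x, Pd p → SE x x → ∃ p', Pd p' ∧ ∀ y, SE y y → ∀ j,
    (IN j y p' ↔ if j = i then ¬ (IN j y p ↔ SE x y) else IN j y p)) ∧
  (∀ x y, SE x y → SE y x) ∧ (∀ x y z, SE x y → SE y z → SE x z) ∧
  (∀ x y z, SE x y → SE x z → x = y ∨ x = z ∨ y = z)

/-- meaning of: `X` is a solution -/
def Chi (X : M → Prop) : Prop :=
  (∀ x, SE x x → ∃ y, SE x y ∧ X y) ∧ (∀ y z, SE y z → X y → X z → y = z) ∧
  (∀ g, SV g g → ∃ g', SV g g' ∧ ∀ x, SE x x → AD g' x → X x)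

/-- meaning of: the rows of `R` are closed under toggling -/
def Clo (R : M → M → Prop) : Prop :=
  ∀ p x, Pd p → SE x x → ∃ p', Pd p' ∧ ∀ y, SE y y → (R y p' ↔ ¬ (R y p ↔ y = x))

end sem

/-- the expanded vocabulary -/
abbrev xLang : FirstOrder.Language.{0, 0} := cLang.sum (randLang 2)

/-- the unary symbol -/
def symP : cLang.Relations 1 := CSym.pad

/-- the binary symbols -/
def sym2 (s : CSym 2) : cLang.Relations 2 := s

/-- the random symbol -/
def symR : (randLang 2).Relations 2 := RandRel.r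

/-- binary atomic formulas -/
def at2 {n : ℕ} (s : CSym 2) (i j : Fin n) : xLang.BoundedFormula Empty n :=
  Relations.boundedFormula₂ (L := xLang) (Sum.inl (sym2 s)) (&i) (&j)

/-- unary atomic formula -/
def atP {n : ℕ} (i : Fin n) : xLang.BoundedFormula Empty n :=
  Relations.boundedFormula₁ (L := xLang) (Sum.inl symP) (&i)

/-- the random relation -/
def atR {n : ℕ} (i j : Fin n) : xLang.BoundedFormula Empty n :=
  Relations.boundedFormula₂ (L := xLang) (Sum.inr symR) (&i) (&j)

/-- equality -/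
def atE {n : ℕ} (i j : Fin n) : xLang.BoundedFormula Empty n :=
  Term.bdEqual (&i) (&j)

section real
variable {M : Type} [cLang.Structure M] (R : Set (Fin 2 → M))

theorem realize_at2 {n : ℕ} (s : CSym 2) (i j : Fin n) (v : Empty → M) (xs : Fin n → M) :
    letI := randStr R
    (at2 s i j).Realize v xs ↔ Structure.RelMap (sym2 s) ![xs i, xs j] := by
  let _ := randStr R
  exact BoundedFormula.realize_rel₂

theorem realize_atP {n : ℕ} (i : Fin n) (v : Empty → M) (xs : Fin n → M) :
    letI := randStr R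
    (atP i).Realize v xs ↔ Structure.RelMap symP ![xs i] := by
  let _ := randStr R
  exact BoundedFormula.realize_rel₁

theorem realize_atR {n : ℕ} (i j : Fin n) (v : Empty → M) (xs : Fin n → M) :
    letI := randStr R
    (atR i j).Realize v xs ↔ ![xs i, xs j] ∈ R := by
  let _ := randStr R
  exact BoundedFormula.realize_rel₂

theorem realize_atE {n : ℕ} (i j : Fin n) (v : Empty → M) (xs : Fin n → M) :
    letI := randStr R
    (atE i j).Realize v xs ↔ xs i = xs j := by
  let _ := randStr R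
  exact BoundedFormula.realize_bdEqual _ _

/-- membership in the padding sort -/
def Pd (x : M) : Prop := Structure.RelMap symP ![x]

/-- the binary relations -/
def Rl (s : CSym 2) (x y : M) : Prop := Structure.RelMap (sym2 s) ![x, y]

end real

/-- well-formedness sentence -/
noncomputable def sTheta : xLang.Sentence :=
  (∃' atP 0) ⊓
  (BoundedFormula.iInf fun i : Fin 4 => ∀' ∀' (atP 0 ⟹ at2 .se 1 1 ⟹
    ∃' (atP 2 ⊓ ∀' (at2 .se 3 3 ⟹ BoundedFormula.iInf fun j : Fin 4 =>
      (at2 (.inc j) 3 2 ⇔ if j = i then ∼(at2 (.inc j) 3 0 ⇔ at2 .se 1 3)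
        else at2 (.inc j) 3 0))))) ⊓
  (∀' ∀' (at2 .se 0 1 ⟹ at2 .se 1 0)) ⊓
  (∀' ∀' ∀' (at2 .se 0 1 ⟹ at2 .se 1 2 ⟹ at2 .se 0 2)) ⊓
  (∀' ∀' ∀' (at2 .se 0 1 ⟹ at2 .se 0 2 ⟹ (atE 0 1 ⊔ (atE 0 2 ⊔ atE 1 2))))

/-- the rows of the random relation are closed under toggling -/
noncomputable def sClo : xLang.Sentence :=
  ∀' ∀' (atP 0 ⟹ at2 .se 1 1 ⟹
    ∃' (atP 2 ⊓ ∀' (at2 .se 3 3 ⟹ (atR 3 2 ⇔ ∼(atR 3 0 ⇔ atE 3 1)))))

/-- some row is a solution -/
noncomputable def sSol : xLang.Sentence :=
  ∃' (atP 0 ⊓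
    ((∀' (at2 .se 1 1 ⟹ ∃' (at2 .se 1 2 ⊓ atR 2 0))) ⊓
    ((∀' ∀' (at2 .se 1 2 ⟹ atR 1 0 ⟹ atR 2 0 ⟹ atE 1 2)) ⊓
    (∀' (at2 .sv 1 1 ⟹ ∃' (at2 .sv 1 2 ⊓
      ∀' (at2 .se 3 3 ⟹ at2 .adj 2 3 ⟹ atR 3 0)))))))

section realize
variable {M : Type} [cLang.Structure M] (R : Set (Fin 2 → M))

omit [cLang.Structure M] in
theorem realize_ite {L : FirstOrder.Language.{0, 0}} [L.Structure M] {n : ℕ} (c : Prop)
    [Decidable c] (a b : L.BoundedFormula Empty n) (v : Empty → M) (xs : Fin n → M) :
    (if c then a else b).Realize v xs ↔ if c then a.Realize v xs else b.Realize v xs := by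
  split_ifs <;> rfl

/-- the random relation as a binary predicate -/
def rb (x y : M) : Prop := ![x, y] ∈ R

theorem sat_theta : Sat R sTheta ↔
    Theta (M := M) Pd (Rl .se) (fun i => Rl (.inc i)) := by
  let _ := randStr R
  unfold Sat sTheta Sentence.Realize Formula.Realize Theta Rl Pd
  simp only [BoundedFormula.realize_inf, BoundedFormula.realize_iInf, BoundedFormula.realize_all,
    BoundedFormula.realize_ex, BoundedFormula.realize_imp, BoundedFormula.realize_iff,
    BoundedFormula.realize_sup, realize_at2, realize_atP, realize_atE,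
    realize_ite, BoundedFormula.realize_not, and_assoc]
  exact Iff.rfl

theorem sat_clo : Sat R sClo ↔
    Clo (M := M) Pd (Rl .se) (rb R) := by
  let _ := randStr R
  unfold Sat sClo Sentence.Realize Formula.Realize Clo Rl Pd rb
  simp only [BoundedFormula.realize_inf, BoundedFormula.realize_all,
    BoundedFormula.realize_ex, BoundedFormula.realize_imp, BoundedFormula.realize_iff,
    realize_at2, realize_atP, realize_atE, realize_atR, BoundedFormula.realize_not]
  exact Iff.rfl

theorem sat_sol : Sat R sSol ↔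
    ∃ p : M, Pd p ∧ Chi (Rl .se) (Rl .sv) (Rl .adj) (fun x => rb R x p) := by
  let _ := randStr R
  unfold Sat sSol Sentence.Realize Formula.Realize Chi Rl Pd rb
  simp only [BoundedFormula.realize_inf, BoundedFormula.realize_all,
    BoundedFormula.realize_ex, BoundedFormula.realize_imp,
    realize_at2, realize_atP, realize_atE, realize_atR]
  exact Iff.rfl

/-- the accepting sentence -/
noncomputable def sYes : xLang.Sentence := sTheta ⊓ (sClo ⊓ sSol)

/-- the rejecting sentence -/
noncomputable def sNo : xLang.Sentence := ∼sTheta ⊔ (sClo ⊓ ∼sSol)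

theorem sat_yes : Sat R sYes ↔ Sat R sTheta ∧ Sat R sClo ∧ Sat R sSol := by
  let _ := randStr R
  unfold Sat sYes Sentence.Realize Formula.Realize
  simp only [BoundedFormula.realize_inf]

theorem sat_no : Sat R sNo ↔ ¬ Sat R sTheta ∨ (Sat R sClo ∧ ¬ Sat R sSol) := by
  let _ := randStr R
  unfold Sat sNo Sentence.Realize Formula.Realize
  simp only [BoundedFormula.realize_inf, BoundedFormula.realize_sup, BoundedFormula.realize_not]

end realize

/-- the query: well formed and solvable -/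
def Qry (M : Type) [cLang.Structure M] : Prop :=
  Theta (M := M) Pd (Rl .se) (fun i => Rl (.inc i)) ∧
    ∃ X : M → Prop, Chi (Rl .se) (Rl .sv) (Rl .adj) X

end Pool.Agent.Helper75.ZFO
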