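import Pool.Agent.Helper75.ZFO.Count

/-! The query is definable with zero error. -/

namespace Pool.Agent.Helper75.ZFO

open FirstOrder FirstOrder.Language

section
variable {M : Type} {Pd : M → Prop} {SE SV AD : M → M → Prop} {IN : Fin 4 → M → M → Prop}

theorem clo_of_full (R : M → M → Prop)
    (hR : ∀ S : {x // SE x x} → Prop, ∃ p : {p // Pd p}, ∀ y : {x // SE x x}, (R y.1 p.1 ↔ S y)) :
    Clo Pd SE R := by
  intro p x hp hx
  obtain ⟨p', hp'⟩ := hR fun y => ¬ (R y.1 p ↔ y.1 = x)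
  exact ⟨p'.1, p'.2, fun y hy => hp' ⟨y, hy⟩⟩

theorem full_of_clo [Finite M] (R : M → M → Prop) (h0 : ∃ p, Pd p) (h : Clo Pd SE R) :
    ∀ S : {x // SE x x} → Prop, ∃ p : {p // Pd p}, ∀ y : {x // SE x x}, (R y.1 p.1 ↔ S y) := by
  intro S
  obtain ⟨p0, hp0⟩ := h0
  let row : {p // Pd p} → ({x // SE x x} → Prop) := fun p y => R y.1 p.1
  have : S ∈ Set.range row := by
    refine all_of_toggle (Set.range row) ⟨row ⟨p0, hp0⟩, ⟨⟨p0, hp0⟩, rfl⟩⟩ ?_ S
    rintro A ⟨p, rfl⟩ x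
    obtain ⟨p', hp', hh⟩ := h p.1 x.1 p.2 x.2
    refine ⟨row ⟨p', hp'⟩, ⟨⟨p', hp'⟩, rfl⟩, fun y => ?_⟩
    show R y.1 p' ↔ ¬ (R y.1 p.1 ↔ y = x)
    rw [hh y.1 y.2, Subtype.ext_iff]
  obtain ⟨p, hp⟩ := this
  exact ⟨p, fun y => by rw [← hp]⟩

theorem sol_iff (R : M → M → Prop) (hTh : Theta Pd SE IN)
    (hR : ∀ S : {x // SE x x} → Prop, ∃ p : {p // Pd p}, ∀ y : {x // SE x x}, (R y.1 p.1 ↔ S y)) :
    (∃ p, Pd p ∧ Chi SE SV AD fun x => R x p) ↔ ∃ X : M → Prop, Chi SE SV AD X := by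
  obtain ⟨-, -, hsym, htrans, -⟩ := hTh
  constructor
  · rintro ⟨p, -, h⟩
    exact ⟨_, h⟩
  · rintro ⟨X, h1, h2, h3⟩
    obtain ⟨p, hp⟩ := hR fun y => X y.1
    have key : ∀ y, SE y y → (R y p.1 ↔ X y) := fun y hy => hp ⟨y, hy⟩
    have hr : ∀ x y, SE x y → SE y y := fun x y h => htrans _ _ _ (hsym _ _ h) h
    have hl : ∀ x y, SE x y → SE x x := fun x y h => htrans _ _ _ h (hsym _ _ h)
    refine ⟨p.1, p.2, ?_, ?_, ?_⟩
    · intro x hx
      obtain ⟨y, hy, hXy⟩ := h1 x hx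
      exact ⟨y, hy, (key y (hr x y hy)).2 hXy⟩
    · intro y z hyz hy hz
      exact h2 y z hyz ((key y (hl y z hyz)).1 hy) ((key z (hr y z hyz)).1 hz)
    · intro g hg
      obtain ⟨g', hg', hh⟩ := h3 g hg
      exact ⟨g', hg', fun x hx hax => (key x hx).2 (hh x hx hax)⟩

end

theorem half_full {M : Type} [Finite M] [cLang.Structure M]
    (hTh : Theta (M := M) Pd (Rl .se) (fun i => Rl (.inc i)))
    (φ : xLang.Sentence)
    (hφ : ∀ R : Set (Fin 2 → M), (∀ S : {x : M // Rl .se x x} → Prop, ∃ p : {p : M // Pd p},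
      ∀ y : {x : M // Rl .se x x}, (rb R y.1 p.1 ↔ S y)) → Sat R φ) :
    Nat.card (Set (Fin 2 → M)) ≤ 2 * Nat.card {R : Set (Fin 2 → M) // Sat R φ} := by
  have h1 := coverage (M := M) (fun x => Rl .se x x) Pd (card_pad_ge hTh)
  refine h1.trans (Nat.mul_le_mul_left 2 ?_)
  exact Nat.card_le_card_of_injective
    (fun R => (⟨R.1, hφ R.1 R.2⟩ : {R : Set (Fin 2 → M) // Sat R φ}))
    fun R R' h => Subtype.ext (by simpa using h)

theorem zero_error : ZeroErrorDefines cLang 2 sYes sNo (fun M [cLang.Structure M] => Qry M) := by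
  intro M _ _ _
  have hno : ∀ (R : Set (Fin 2 → M)), Theta (M := M) Pd (Rl .se) (fun i => Rl (.inc i)) →
      Sat R sClo → (Sat R sSol ↔ ∃ X : M → Prop, Chi (Rl .se) (Rl .sv) (Rl .adj) X) := by
    intro R hTh hC
    rw [sat_sol, sol_iff (rb R) hTh (full_of_clo (rb R) hTh.1 ((sat_clo R).1 hC))]
  constructor
  · rintro ⟨hTh, hX⟩
    refine ⟨fun R hR => ?_, ?_⟩
    · rw [sat_no] at hR
      rcases hR with h | ⟨h1, h2⟩
      · exact h ((sat_theta R).2 hTh)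
      · exact h2 ((hno R hTh h1).2 hX)
    · refine half_full hTh sYes fun R hR => ?_
      have hC : Sat R sClo := (sat_clo R).2 (clo_of_full (rb R) hR)
      exact (sat_yes R).2 ⟨(sat_theta R).2 hTh, hC, (hno R hTh hC).2 hX⟩
  · intro hQ
    refine ⟨fun R hR => ?_, ?_⟩
    · rw [sat_yes, sat_theta, sat_sol] at hR
      obtain ⟨hTh, -, p, -, hp⟩ := hR
      exact hQ ⟨hTh, _, hp⟩
    · by_cases hTh : Theta (M := M) Pd (Rl .se) (fun i => Rl (.inc i))
      · refine half_full hTh sNo fun R hR => ?_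
        have hC : Sat R sClo := (sat_clo R).2 (clo_of_full (rb R) hR)
        exact (sat_no R).2 (Or.inr ⟨hC, fun h => hQ ⟨hTh, (hno R hTh hC).1 h⟩⟩)
      · have h1 : ∀ R : Set (Fin 2 → M), Sat R sNo := fun R =>
          (sat_no R).2 (Or.inl fun h => hTh ((sat_theta R).1 h))
        have h2 : Nat.card {R : Set (Fin 2 → M) // Sat R sNo} = Nat.card (Set (Fin 2 → M)) :=
          Nat.card_congr (Equiv.subtypeUnivEquiv h1)
        rw [h2]
        omega

end Pool.Agent.Helper75.ZFO
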